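import Pool.Agent.Helper19.AAR.Final

/-!
# LR-1: the relations between the eigenvalues of `γ ^ N` and of a further block with small
splitting field
-/

open Polynomial

namespace Pool.Agent.Helper84.LR

open Pool.Agent.Helper84.AA (frob)
open Pool.Agent.Helper19.AAR (splitF GoodR)
open Pool.Agent.Helper19.Sign (weil weil_monic weil_map eval_weil)

/-- The polynomial whose roots are the `N`-th powers of the roots of `P`, with multiplicities. -/
noncomputable def powPoly (N : ℕ) (P : ℂ[X]) : ℂ[X] := (P.roots.map fun z => X - C (z ^ N)).prod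

theorem powPoly_monic (N : ℕ) (P : ℂ[X]) : (powPoly N P).Monic :=
  monic_multiset_prod_of_monic _ _ fun _ _ => monic_X_sub_C _

theorem roots_powPoly (N : ℕ) (P : ℂ[X]) : (powPoly N P).roots = P.roots.map fun z => z ^ N := by
  have h1 : P.roots.map (fun z => X - C (z ^ N)) = (P.roots.map fun z => z ^ N).map
      fun a => X - C a := by
    rw [Multiset.map_map]
    rfl
  unfold powPoly
  rw [h1, roots_multiset_prod_X_sub_C]

theorem ne_zero_of {q : ℕ} (hq : 1 ≤ q) {f : ℤ[X]} (hf : f.Monic) {z : ℂ}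
    (hz : z ∈ ((frob q f).map (Int.castRingHom ℂ)).roots) : z ≠ 0 := by
  rintro rfl
  have h1 := (mem_roots'.1 hz).2
  rw [IsRoot.def, eval_map, eval₂_at_zero] at h1
  have h2 : (frob q f).coeff 0 = (q : ℤ) ^ f.natDegree := by
    unfold frob
    rw [finsetSum_coeff, Finset.sum_eq_single f.natDegree]
    · rw [Nat.sub_self, pow_zero, mul_one, mul_coeff_zero, coeff_C_zero]
      have h3 : ((X ^ 2 + C (q : ℤ)) ^ f.natDegree).coeff 0 = (q : ℤ) ^ f.natDegree := by
        rw [coeff_zero_eq_eval_zero, eval_pow]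
        simp
      rw [h3, hf.coeff_natDegree, one_mul]
    · intro l hl hne
      have hl2 : l < f.natDegree := by
        have := Finset.mem_range.1 hl
        omega
      rw [mul_coeff_zero, mul_coeff_zero, coeff_X_pow, if_neg (by omega), mul_zero, zero_mul]
    · intro h4
      exact absurd (Finset.mem_range.2 (Nat.lt_succ_self _)) h4
  rw [h2] at h1
  have h5 : (Int.castRingHom ℂ) ((q : ℤ) ^ f.natDegree) = (q : ℂ) ^ f.natDegree := by
    simp
  rw [h5] at h1
  exact pow_ne_zero _ (by exact_mod_cast (by omega : q ≠ 0)) h1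

theorem inv_root {q : ℕ} (hq : 1 ≤ q) {f : ℤ[X]} (hf : f.Monic) {z : ℂ}
    (hz : z ∈ ((frob q f).map (Int.castRingHom ℂ)).roots) :
    (q : ℂ) / z ∈ ((frob q f).map (Int.castRingHom ℂ)).roots := by
  have hz0 := ne_zero_of hq hf hz
  have hq0 : (q : ℂ) ≠ 0 := by exact_mod_cast (by omega : q ≠ 0)
  have hmap : (frob q f).map (Int.castRingHom ℂ) = weil (q : ℂ) (f.map (Int.castRingHom ℂ)) := by
    have h1 := weil_map (Int.castRingHom ℂ) (q : ℤ) f (hf.natDegree_map _)
    have h2 : (Int.castRingHom ℂ) (q : ℤ) = (q : ℂ) := by simp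
    rw [h2] at h1
    exact h1
  obtain ⟨h1, h2⟩ := mem_roots'.1 hz
  refine mem_roots'.2 ⟨h1, ?_⟩
  rw [hmap, IsRoot.def] at h2 ⊢
  rw [eval_weil _ _ _ hz0] at h2
  rw [eval_weil _ _ _ (div_ne_zero hq0 hz0)]
  have h3 := (mul_eq_zero.1 h2).resolve_left (pow_ne_zero _ hz0)
  have h4 : (q : ℂ) / z + q / (q / z) = z + q / z := by
    rw [div_div_cancel₀ hq0, add_comm]
  rw [h4, h3, mul_zero]

section roots

variable {q k : ℕ} (h : Fin k → ℤ[X])

private theorem minpoly_eq (hm : ∀ i, (h i).Monic) (hg : GoodR q h) (i : Fin k) {z : ℂ}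
    (hz : z ∈ ((frob q (h i)).map (Int.castRingHom ℂ)).roots) :
    minpoly ℚ z = (frob q (h i)).map (Int.castRingHom ℚ) := by
  have hfm : (frob q (h i)).Monic := (weil_monic (q : ℤ) (h i) (hm i)).1
  have hirr : Irreducible ((frob q (h i)).map (Int.castRingHom ℚ)) :=
    (hfm.irreducible_iff_irreducible_map_fraction_map (K := ℚ)).1 (hg.1 i)
  refine (minpoly.eq_of_irreducible_of_monic hirr ?_ (hfm.map _)).symm
  have h1 := (mem_roots'.1 hz).2
  rw [IsRoot.def, eval_map] at h1
  have h2 : (algebraMap ℚ ℂ).comp (Int.castRingHom ℚ) = Int.castRingHom ℂ := RingHom.ext_int _ _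
  rw [aeval_def, eval₂_map, h2]
  exact h1

private theorem nodup_one (hm : ∀ i, (h i).Monic) (hg : GoodR q h) (i : Fin k) :
    ((frob q (h i)).map (Int.castRingHom ℂ)).roots.Nodup := by
  have hfm : (frob q (h i)).Monic := (weil_monic (q : ℤ) (h i) (hm i)).1
  have hirr : Irreducible ((frob q (h i)).map (Int.castRingHom ℚ)) :=
    (hfm.irreducible_iff_irreducible_map_fraction_map (K := ℚ)).1 (hg.1 i)
  have h1 : (((frob q (h i)).map (Int.castRingHom ℚ)).map (algebraMap ℚ ℂ)).Separable :=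
    hirr.separable.map
  rw [Polynomial.map_map] at h1
  have h2 : (algebraMap ℚ ℂ).comp (Int.castRingHom ℚ) = Int.castRingHom ℂ := RingHom.ext_int _ _
  rw [h2] at h1
  exact nodup_roots h1

private theorem ne_sq (hm : ∀ i, (h i).Monic) (hd : ∀ i, 2 ≤ (h i).natDegree) (hg : GoodR q h)
    (i : Fin k) {z : ℂ} (hz : z ∈ ((frob q (h i)).map (Int.castRingHom ℂ)).roots) :
    z ^ 2 ≠ q := by
  intro hzq
  have h1 := minpoly_eq h hm hg i hz
  have hfm := weil_monic (q : ℤ) (h i) (hm i)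
  have h2 : minpoly ℚ z ∣ X ^ 2 - C (q : ℚ) := by
    apply minpoly.dvd
    rw [map_sub, map_pow, aeval_X, aeval_C, hzq]
    simp
  have h3 := natDegree_le_of_dvd h2 (X_pow_sub_C_ne_zero (by norm_num) _)
  rw [h1, natDegree_X_pow_sub_C] at h3
  have h4 : ((frob q (h i)).map (Int.castRingHom ℚ)).natDegree = (frob q (h i)).natDegree :=
    Monic.natDegree_map hfm.1 _
  rw [h4] at h3
  have h5 : (frob q (h i)).natDegree = 2 * (h i).natDegree := hfm.2
  have h6 := hd i
  omega

theorem div_ne (hq : 1 ≤ q) (hm : ∀ i, (h i).Monic) (hd : ∀ i, 2 ≤ (h i).natDegree)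
    (hg : GoodR q h) (i : Fin k) {z : ℂ}
    (hz : z ∈ ((frob q (h i)).map (Int.castRingHom ℂ)).roots) : (q : ℂ) / z ≠ z := by
  intro h5
  apply ne_sq h hm hd hg i hz
  rw [div_eq_iff (ne_zero_of hq (hm i) hz)] at h5
  rw [h5, sq]

variable {R : ℤ[X]}

/-- No power of an eigenvalue of `B_i` lies in the small field. -/
theorem pow_not_mem (hq : 1 ≤ q) (hm : ∀ i, (h i).Monic) (hd : ∀ i, 2 ≤ (h i).natDegree)
    (hg : GoodR q h) (hR : R ≠ 0) {N : ℕ} (hN : N ≠ 0) {i : Fin k}
    (hi : Module.finrank ℚ (splitF R) < 2 ^ (h i).natDegree) {z : ℂ}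
    (hz : z ∈ ((frob q (h i)).map (Int.castRingHom ℂ)).roots) : z ^ N ∉ splitF R := by
  classical
  intro hmem
  let n : Fin k → ℂ → ℤ := fun l w => if w = z then (if l = i then 1 else 0) else 0
  have hprod : (∏ l, ∏ w ∈ ((frob q (h l)).map (Int.castRingHom ℂ)).roots.toFinset, w ^ n l w) =
      z := by
    rw [Finset.prod_eq_single i]
    · rw [Finset.prod_eq_single z]
      · simp [n]
      · intro w _ hw
        simp [n, hw]
      · intro h2
        exact absurd (Multiset.mem_toFinset.2 hz) h2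
    · intro l _ hl
      apply Finset.prod_eq_one
      intro w _
      simp [n, hl]
    · intro h2
      exact absurd (Finset.mem_univ _) h2
  have h4 := hg.2 R hR n N hN (by rw [hprod]; exact hmem) i hi z (Multiset.mem_toFinset.2 hz)
  have h5 := div_ne h hq hm hd hg i hz
  simp [n, h5] at h4

/-- The `N`-th powers of the eigenvalues of `B_i` are different from the others. -/
theorem pow_uniq (hq : 1 ≤ q) (hm : ∀ i, (h i).Monic) (hd : ∀ i, 2 ≤ (h i).natDegree)
    (hg : GoodR q h) (hR : R ≠ 0) {N : ℕ} (hN : N ≠ 0) {i : Fin k}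
    (hi : Module.finrank ℚ (splitF R) < 2 ^ (h i).natDegree) {z : ℂ}
    (hz : z ∈ ((frob q (h i)).map (Int.castRingHom ℂ)).roots) {j : Fin k} {w : ℂ}
    (hw : w ∈ ((frob q (h j)).map (Int.castRingHom ℂ)).roots) (hzw : w ^ N = z ^ N) :
    j = i ∧ w = z := by
  classical
  by_contra hne
  have hz0 := ne_zero_of hq (hm i) hz
  have hw0 := ne_zero_of hq (hm j) hw
  let n : Fin k → ℂ → ℤ := fun l y => (if l = i ∧ y = z then 1 else 0) -
    (if l = j ∧ y = w then 1 else 0)
  have hone : ∀ (a : Fin k) (x : ℂ), x ≠ 0 →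
      x ∈ ((frob q (h a)).map (Int.castRingHom ℂ)).roots →
      (∏ l, ∏ y ∈ ((frob q (h l)).map (Int.castRingHom ℂ)).roots.toFinset,
        y ^ (if l = a ∧ y = x then (1 : ℤ) else 0)) = x := by
    intro a x _ hx
    rw [Finset.prod_eq_single a]
    · rw [Finset.prod_eq_single x]
      · simp
      · intro y _ hy
        simp [hy]
      · intro h2
        exact absurd (Multiset.mem_toFinset.2 hx) h2
    · intro l _ hl
      apply Finset.prod_eq_one
      intro y _
      simp [hl]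
    · intro h2
      exact absurd (Finset.mem_univ _) h2
  have hprod : (∏ l, ∏ y ∈ ((frob q (h l)).map (Int.castRingHom ℂ)).roots.toFinset, y ^ n l y) =
      z / w := by
    have h1 : ∀ l, ∏ y ∈ ((frob q (h l)).map (Int.castRingHom ℂ)).roots.toFinset, y ^ n l y =
        (∏ y ∈ ((frob q (h l)).map (Int.castRingHom ℂ)).roots.toFinset,
          y ^ (if l = i ∧ y = z then (1 : ℤ) else 0)) /
        (∏ y ∈ ((frob q (h l)).map (Int.castRingHom ℂ)).roots.toFinset,
          y ^ (if l = j ∧ y = w then (1 : ℤ) else 0)) := by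
      intro l
      rw [← Finset.prod_div_distrib]
      refine Finset.prod_congr rfl fun y hy => ?_
      exact zpow_sub₀ (ne_zero_of hq (hm l) (Multiset.mem_toFinset.1 hy)) _ _
    rw [Finset.prod_congr rfl fun l _ => h1 l, Finset.prod_div_distrib, hone i z hz0 hz,
      hone j w hw0 hw]
  have h4 := hg.2 R hR n N hN (by
    rw [hprod, div_pow, hzw, div_self (pow_ne_zero _ hz0)]
    exact (splitF R).one_mem) i hi z (Multiset.mem_toFinset.2 hz)
  have h5 := div_ne h hq hm hd hg i hz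
  have e1 : n i z = 1 := by
    have h6 : ¬ (i = j ∧ z = w) := fun h7 => hne ⟨h7.1.symm, h7.2.symm⟩
    simp [n, h6]
  have e2 : n i (q / z) ≤ 0 := by
    simp only [n, h5, and_false, if_false, zero_sub]
    split_ifs <;> norm_num
  rw [e1] at h4
  omega

/-- The eigenvalues. -/
theorem roots_all (hm : ∀ i, (h i).Monic) (hR : R ≠ 0) (N : ℕ) :
    ((∏ i, powPoly N ((frob q (h i)).map (Int.castRingHom ℂ))) *
        R.map (Int.castRingHom ℂ)).roots =
      (∑ i, ((frob q (h i)).map (Int.castRingHom ℂ)).roots.map fun z => z ^ N) +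
        (R.map (Int.castRingHom ℂ)).roots := by
  have hR0 : R.map (Int.castRingHom ℂ) ≠ 0 :=
    (Polynomial.map_ne_zero_iff (Int.castRingHom ℂ).injective_int).2 hR
  have h0 : (∏ i, powPoly N ((frob q (h i)).map (Int.castRingHom ℂ))) ≠ 0 :=
    Finset.prod_ne_zero_iff.2 fun i _ => (powPoly_monic _ _).ne_zero
  rw [roots_mul (mul_ne_zero h0 hR0), roots_prod _ _ h0]
  congr 1
  rw [Multiset.bind, Multiset.join]
  exact Finset.sum_congr rfl fun i _ => roots_powPoly _ _

/-- They are simple eigenvalues. -/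
theorem count_eq_one (hq : 1 ≤ q) (hm : ∀ i, (h i).Monic) (hd : ∀ i, 2 ≤ (h i).natDegree)
    (hg : GoodR q h) (hR : R ≠ 0) {N : ℕ} (hN : N ≠ 0) {i : Fin k}
    (hi : Module.finrank ℚ (splitF R) < 2 ^ (h i).natDegree) {z : ℂ}
    (hz : z ∈ ((frob q (h i)).map (Int.castRingHom ℂ)).roots) :
    ((∏ i, powPoly N ((frob q (h i)).map (Int.castRingHom ℂ))) *
        R.map (Int.castRingHom ℂ)).roots.count (z ^ N) = 1 := by
  classical
  rw [roots_all h hm hR, Multiset.count_add, Multiset.count_sum']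
  have h1 : (R.map (Int.castRingHom ℂ)).roots.count (z ^ N) = 0 := by
    rw [Multiset.count_eq_zero]
    intro h2
    apply pow_not_mem h hq hm hd hg hR hN hi hz
    apply IntermediateField.subset_adjoin
    have h3 := (mem_roots'.1 h2).2
    rw [IsRoot.def, eval_map] at h3
    exact h3
  rw [h1, add_zero, Finset.sum_eq_single i]
  · rw [Multiset.count_map]
    have h2 : ((frob q (h i)).map (Int.castRingHom ℂ)).roots.filter (fun a => z ^ N = a ^ N) =
        ((frob q (h i)).map (Int.castRingHom ℂ)).roots.filter (fun a => a = z) := by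
      apply Multiset.filter_congr
      intro w hw
      constructor
      · intro h3
        exact (pow_uniq h hq hm hd hg hR hN hi hz hw h3.symm).2
      · rintro rfl
        rfl
    rw [h2, Multiset.filter_eq', Multiset.card_replicate]
    exact Multiset.count_eq_one_of_mem (nodup_one h hm hg i) hz
  · intro j _ hj
    rw [Multiset.count_eq_zero]
    intro h2
    obtain ⟨w, hw, hwz⟩ := Multiset.mem_map.1 h2
    exact hj (pow_uniq h hq hm hd hg hR hN hi hz hw hwz).1
  · intro h2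
    exact absurd (Finset.mem_univ _) h2

/-- The relations between the eigenvalues. -/
theorem rel_all (hq : 1 ≤ q) (hm : ∀ i, (h i).Monic) (hd : ∀ i, 2 ≤ (h i).natDegree)
    (hg : GoodR q h) (hR : R ≠ 0) {N : ℕ} (hN : N ≠ 0) (n : ℂ → ℤ)
    (hrel : ∏ w ∈ ((∏ i, powPoly N ((frob q (h i)).map (Int.castRingHom ℂ))) *
        R.map (Int.castRingHom ℂ)).roots.toFinset, w ^ n w = 1) {i : Fin k}
    (hi : Module.finrank ℚ (splitF R) < 2 ^ (h i).natDegree) {z : ℂ}
    (hz : z ∈ ((frob q (h i)).map (Int.castRingHom ℂ)).roots) :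
    n (z ^ N) = n ((q : ℂ) ^ N / z ^ N) := by
  classical
  -- the pairs
  let Z : Fin k → Finset ℂ := fun j => ((frob q (h j)).map (Int.castRingHom ℂ)).roots.toFinset
  have hZ : ∀ j w, w ∈ Z j ↔ w ∈ ((frob q (h j)).map (Int.castRingHom ℂ)).roots := fun j w =>
    Multiset.mem_toFinset
  let EB : Finset ℂ := Finset.univ.biUnion fun j => (Z j).image fun w => w ^ N
  have hEB : ∀ w, w ∈ EB ↔ ∃ p : Fin k × ℂ, p.2 ∈ Z p.1 ∧ p.2 ^ N = w := by
    intro w
    simp only [EB, Finset.mem_biUnion, Finset.mem_univ, true_and, Finset.mem_image]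
    constructor
    · rintro ⟨j, y, hy, rfl⟩
      exact ⟨(j, y), hy, rfl⟩
    · rintro ⟨p, hp, rfl⟩
      exact ⟨p.1, p.2, hp, rfl⟩
  let s : ℂ → Fin k × ℂ := fun w => if hw : w ∈ EB then ((hEB w).1 hw).choose else (i, 0)
  have hs : ∀ w ∈ EB, (s w).2 ∈ Z (s w).1 ∧ (s w).2 ^ N = w := by
    intro w hw
    have h1 : s w = ((hEB w).1 hw).choose := dif_pos hw
    rw [h1]
    exact ((hEB w).1 hw).choose_spec
  let E : Finset ℂ := ((∏ i, powPoly N ((frob q (h i)).map (Int.castRingHom ℂ))) *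
        R.map (Int.castRingHom ℂ)).roots.toFinset
  have hE : ∀ w, w ∈ E ↔ w ∈ EB ∨ w ∈ (R.map (Int.castRingHom ℂ)).roots := by
    intro w
    rw [hEB]
    simp only [E, Multiset.mem_toFinset]
    rw [roots_all h hm hR, Multiset.mem_add, Multiset.mem_sum]
    constructor
    · rintro (⟨j, -, h2⟩ | h2)
      · obtain ⟨y, hy, rfl⟩ := Multiset.mem_map.1 h2
        exact Or.inl ⟨(j, y), (hZ j y).2 hy, rfl⟩
      · exact Or.inr h2
    · rintro (⟨p, hp, rfl⟩ | h2)
      · exact Or.inl ⟨p.1, Finset.mem_univ _, Multiset.mem_map.2 ⟨p.2, (hZ _ _).1 hp, rfl⟩⟩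
      · exact Or.inr h2
  have hsub : EB ⊆ E := fun w hw => (hE w).2 (Or.inl hw)
  let n' : Fin k → ℂ → ℤ := fun j y => if s (y ^ N) = (j, y) then n (y ^ N) else 0
  have hprod : (∏ j, ∏ y ∈ Z j, y ^ n' j y) ^ N = ∏ w ∈ EB, w ^ n w := by
    have h1 : (∏ j, ∏ y ∈ Z j, y ^ n' j y) ^ N =
        ∏ p ∈ Finset.univ.sigma Z, (p.2 ^ N) ^ n' p.1 p.2 := by
      rw [Finset.prod_sigma, ← Finset.prod_pow]
      refine Finset.prod_congr rfl fun j _ => ?_
      rw [← Finset.prod_pow]
      refine Finset.prod_congr rfl fun y _ => ?_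
      rw [← zpow_natCast, ← zpow_natCast, ← zpow_mul, ← zpow_mul, mul_comm]
    rw [h1]
    symm
    refine Finset.prod_of_injOn (fun w => (⟨(s w).1, (s w).2⟩ : Σ _ : Fin k, ℂ)) ?_ ?_ ?_ ?_
    · intro w hw w' hw' hww
      have e1 := (hs w hw).2
      have e2 := (hs w' hw').2
      simp only [Sigma.mk.injEq] at hww
      rw [← e1, ← e2, eq_of_heq hww.2]
    · intro w hw
      simp only [Finset.coe_sigma, Set.mem_sigma_iff, Finset.mem_coe, true_and,
        Finset.coe_univ, Set.mem_univ]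
      exact (hs w hw).1
    · rintro ⟨j, y⟩ hjy hnot
      have hy : y ∈ Z j := (Finset.mem_sigma.1 hjy).2
      have h2 : s (y ^ N) ≠ (j, y) := by
        intro h3
        apply hnot
        refine ⟨y ^ N, (hEB _).2 ⟨(j, y), hy, rfl⟩, ?_⟩
        simp only [h3]
      simp only [n', if_neg h2, zpow_zero]
    · intro w hw
      have e1 := (hs w hw).2
      simp only [n', e1, if_true]
  have hrest : ∏ w ∈ EB, w ^ n w = (∏ w ∈ E \ EB, w ^ n w)⁻¹ := by
    have h1 := Finset.prod_sdiff (f := fun w : ℂ => w ^ n w) hsub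
    have h2 : ∏ w ∈ E, w ^ n w = 1 := hrel
    rw [h2] at h1
    exact eq_inv_of_mul_eq_one_right h1
  have hmem : (∏ j, ∏ y ∈ Z j, y ^ n' j y) ^ N ∈ splitF R := by
    rw [hprod, hrest]
    refine (splitF R).inv_mem (prod_mem fun w hw => zpow_mem ?_ _)
    obtain ⟨h1, h2⟩ := Finset.mem_sdiff.1 hw
    have h3 := ((hE w).1 h1).resolve_left h2
    apply IntermediateField.subset_adjoin
    have h4 := (mem_roots'.1 h3).2
    rw [IsRoot.def, eval_map] at h4
    exact h4
  have hfin := hg.2 R hR n' N hN hmem i hi z (Multiset.mem_toFinset.2 hz)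
  have hval : ∀ y, y ∈ ((frob q (h i)).map (Int.castRingHom ℂ)).roots → n' i y = n (y ^ N) := by
    intro y hy
    have h1 : y ^ N ∈ EB := (hEB _).2 ⟨(i, y), (hZ _ _).2 hy, rfl⟩
    obtain ⟨h2, h3⟩ := hs _ h1
    obtain ⟨h4, h5⟩ := pow_uniq h hq hm hd hg hR hN hi hy ((hZ _ _).1 h2) h3
    have h6 : s (y ^ N) = (i, y) := Prod.ext h4 h5
    simp only [n', if_pos h6]
  rw [hval z hz, hval _ (inv_root hq (hm i) hz), div_pow] at hfin
  exact hfin

end roots

end Pool.Agent.Helper84.LR
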