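import Pool.Agent.Helper59.RL.Torus
import Pool.Agent.Helper84.LR.Rel

/-!
# LR-2: the definition of the statement
-/

open Polynomial

namespace Pool.Agent.Helper84.LR

open Pool.Agent.Helper84.AA (frob)
open Pool.Agent.Helper84.LM (InfSim InLie)
open Pool.Agent.Helper19.AAR (splitF)
open Pool.Agent.Helper59.RL (Part orth)

/-- For every symplectic space `(V, ψ)` over `ℂ`, every group `G` of similitudes of `ψ` such that
`V` is semisimple over the Lie algebra `L = {X | InLie G X}` of the Zariski closure of `G`, and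
every semisimple element `γ` of `G` with multiplier `q ^ N` and characteristic polynomial
`∏ (T - z ^ N) * R`, the product over the roots `z` of all `frob q (h i)`, `R` any nonzero integral
polynomial: let `V₁` be the smallest `L`-stable subspace which contains the eigenvectors of `γ` for
the eigenvalues `z ^ N`, `z` a root of some `frob q (h i)` with `[splitF R : ℚ] < 2 ^ deg (h i)`.
Then `V` is the direct sum of `V₁` and of its orthogonal complement `V₂`, and `L` is the Lie algebra
of all infinitesimal similitudes of `ψ` which commute with `End_L(V)` and which coincide on `V₂`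
with an element of `L`. -/
def RelLefschetz (q : ℕ) {k : ℕ} (h : Fin k → ℤ[X]) : Prop :=
  ∀ (V : Type) [AddCommGroup V] [Module ℂ V] [FiniteDimensional ℂ V]
    (ψ : LinearMap.BilinForm ℂ V), ψ.Nondegenerate → (∀ x, ψ x x = 0) →
    ∀ G : Subgroup (Module.End ℂ V)ˣ,
      (∀ g ∈ G, ∃ c : ℂ, ∀ x y, ψ ((g : Module.End ℂ V) x) ((g : Module.End ℂ V) y) = c * ψ x y) →
      (∀ U : Submodule ℂ V, (∀ X, InLie G X → ∀ u ∈ U, X u ∈ U) →
        ∃ U' : Submodule ℂ V, (∀ X, InLie G X → ∀ u ∈ U', X u ∈ U') ∧ IsCompl U U') →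
    ∀ γ ∈ G, ∀ N : ℕ, N ≠ 0 → (γ : Module.End ℂ V).IsSemisimple →
      (∀ x y, ψ ((γ : Module.End ℂ V) x) ((γ : Module.End ℂ V) y) = (q : ℂ) ^ N * ψ x y) →
    ∀ R : ℤ[X], R ≠ 0 → LinearMap.charpoly (γ : Module.End ℂ V) =
      (∏ i, powPoly N ((frob q (h i)).map (Int.castRingHom ℂ))) * R.map (Int.castRingHom ℂ) →
    ∀ V₁ : Submodule ℂ V,
      V₁ = Part G {v | ∃ i, Module.finrank ℚ (splitF R) < 2 ^ (h i).natDegree ∧
        ∃ z ∈ ((frob q (h i)).map (Int.castRingHom ℂ)).roots,
          (γ : Module.End ℂ V) v = z ^ N • v} →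
      IsCompl V₁ (orth ψ V₁) ∧
      ∀ X : Module.End ℂ V, InLie G X ↔ InfSim ψ X ∧
        (∀ Y : Module.End ℂ V, (∀ Z, InLie G Z → Y * Z = Z * Y) → X * Y = Y * X) ∧
        ∃ Z, InLie G Z ∧ ∀ v ∈ orth ψ V₁, X v = Z v

end Pool.Agent.Helper84.LR
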