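import Pool.Agent.Helper59.RL.Arith
import Pool.Agent.Helper84.LR.Defs

/-!
# LR-3: groups of similitudes containing a power of a Frobenius element, relative version
-/

open Polynomial

namespace Pool.Agent.Helper84.LR

open Pool.Agent.Helper84.AA (frob)
open Pool.Agent.Helper84.LM (InfSim InLie)
open Pool.Agent.Helper19.AAR (splitF GoodR)
open Pool.Agent.Helper59.RL (Part orth exists_basis charpoly_eq lift)

private theorem zpow_sum {ι : Type} (S : Finset ι) {w : ℂ} (hw : w ≠ 0) (n : ι → ℤ) :
    w ^ (∑ i ∈ S, n i) = ∏ i ∈ S, w ^ n i := by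
  classical
  induction S using Finset.induction_on with
  | empty => rw [Finset.sum_empty, Finset.prod_empty, zpow_zero]
  | insert i S hi ih => rw [Finset.sum_insert hi, Finset.prod_insert hi, zpow_add₀ hw, ih]

theorem relLefschetz_of {q k : ℕ} (hq : 2 ≤ q) (h : Fin k → ℤ[X]) (hm : ∀ i, (h i).Monic)
    (hd : ∀ i, 2 ≤ (h i).natDegree) (hg : GoodR q h) : RelLefschetz q h := by
  classical
  intro V _ _ _ ψ hnd halt G hG hss γ hγ N hN hγss hmult R hR hchar V₁ hV₁
  subst hV₁
  have hq1 : 1 ≤ q := by omega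
  obtain ⟨κ, _, b, z, hb⟩ := exists_basis (γ : Module.End ℂ V) hγss
  have hch := charpoly_eq (γ : Module.End ℂ V) b z hb
  set P : ℂ[X] := (∏ i, powPoly N ((frob q (h i)).map (Int.castRingHom ℂ))) *
    R.map (Int.castRingHom ℂ) with hP
  have hroots : P.roots = Finset.univ.val.map z := by
    rw [← hchar, hch]
    have e : (Finset.univ.val.map fun i => (X - C (z i) : ℂ[X])) =
        (Finset.univ.val.map z).map fun a => X - C a := by
      rw [Multiset.map_map]
      rfl
    rw [Finset.prod_eq_multiset_prod, e, roots_multiset_prod_X_sub_C]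
  have hz0 : ∀ i, z i ≠ 0 := by
    intro i hi
    have h1 := hb i
    rw [hi, zero_smul] at h1
    have h2 : ((γ⁻¹ : (Module.End ℂ V)ˣ) : Module.End ℂ V) ((γ : Module.End ℂ V) (b i)) = b i := by
      rw [← Module.End.mul_apply, Units.inv_mul, Module.End.one_apply]
    rw [h1, map_zero] at h2
    exact b.ne_zero i h2.symm
  -- the free eigenvalues
  let Zs : Set ℂ := {w | ∃ i, Module.finrank ℚ (splitF R) < 2 ^ (h i).natDegree ∧
    ∃ y ∈ ((frob q (h i)).map (Int.castRingHom ℂ)).roots, w = y ^ N}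
  have hset : {v : V | ∃ i, Module.finrank ℚ (splitF R) < 2 ^ (h i).natDegree ∧
        ∃ z ∈ ((frob q (h i)).map (Int.castRingHom ℂ)).roots,
          (γ : Module.End ℂ V) v = z ^ N • v} =
      {v | ∃ w ∈ Zs, (γ : Module.End ℂ V) v = w • v} := by
    ext v
    constructor
    · rintro ⟨i, hi, y, hy, hv⟩
      exact ⟨_, ⟨i, hi, y, hy, rfl⟩, hv⟩
    · rintro ⟨_, ⟨i, hi, y, hy, rfl⟩, hv⟩
      exact ⟨i, hi, y, hy, hv⟩
  have hinv : ∀ w ∈ Zs, ((q ^ N : ℕ) : ℂ) / w ∈ Zs := by
    rintro w ⟨i, hi, y, hy, rfl⟩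
    refine ⟨i, hi, q / y, inv_root hq1 (hm i) hy, ?_⟩
    push_cast
    rw [div_pow]
  have hsimple : ∀ i j, z i ∈ Zs → z j = z i → j = i := by
    rintro i j ⟨a, ha, y, hy, hi⟩ hj
    have h1 : P.roots.count (y ^ N) = 1 := count_eq_one h hq1 hm hd hg hR hN ha hy
    rw [hroots, Multiset.count_map] at h1
    have h2 : (Finset.univ.filter fun i => y ^ N = z i).card = 1 := h1
    obtain ⟨l, hl⟩ := Finset.card_eq_one.1 h2
    have h3 : ∀ j, z j = y ^ N → j = l := by
      intro j hj
      have h4 : j ∈ Finset.univ.filter (fun i => y ^ N = z i) :=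
        Finset.mem_filter.2 ⟨Finset.mem_univ _, hj.symm⟩
      rw [hl, Finset.mem_singleton] at h4
      exact h4
    rw [h3 i hi, h3 j (hj.trans hi)]
  rw [hset]
  refine lift ψ hnd halt hG hss hγ (Q := q ^ N) ?_ ?_ b z hb Zs hinv hsimple ?_
  · exact le_trans hq (Nat.le_self_pow hN q)
  · intro x y
    rw [hmult]
    push_cast
    rfl
  · rintro n hn i j hi hij
    have hij' : z j = ((q ^ N : ℕ) : ℂ) / z i := by
      rw [eq_div_iff (hz0 i), mul_comm]
      exact hij
    have hj : z j ∈ Zs := by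
      rw [hij']
      exact hinv _ hi
    -- the relation between the eigenvalues
    let n' : ℂ → ℤ := fun w => ∑ i ∈ Finset.univ.filter (fun i => z i = w), n i
    have hmem : ∀ i ∈ (Finset.univ : Finset κ), z i ∈ P.roots.toFinset := by
      intro i _
      rw [Multiset.mem_toFinset, hroots]
      exact Multiset.mem_map_of_mem z (Finset.mem_univ_val i)
    have hprod : ∏ w ∈ P.roots.toFinset, w ^ n' w = 1 := by
      rw [← hn, ← Finset.prod_fiberwise_of_maps_to hmem]
      refine Finset.prod_congr rfl fun w hw => ?_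
      have hw0 : w ≠ 0 := by
        rw [Multiset.mem_toFinset, hroots] at hw
        obtain ⟨i, -, rfl⟩ := Multiset.mem_map.1 hw
        exact hz0 i
      show w ^ (∑ i ∈ Finset.univ.filter (fun i => z i = w), n i) = _
      rw [zpow_sum _ hw0]
      refine Finset.prod_congr rfl fun i hi => ?_
      rw [(Finset.mem_filter.1 hi).2]
    have hval : ∀ i, z i ∈ Zs → n' (z i) = n i := by
      intro i hi
      have h1 : Finset.univ.filter (fun j => z j = z i) = {i} := by
        ext j
        rw [Finset.mem_filter, Finset.mem_singleton]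
        constructor
        · rintro ⟨-, h2⟩
          exact hsimple i j hi h2
        · rintro rfl
          exact ⟨Finset.mem_univ _, rfl⟩
      show ∑ j ∈ Finset.univ.filter (fun j => z j = z i), n j = n i
      rw [h1, Finset.sum_singleton]
    obtain ⟨a, ha, y, hy, hiy⟩ := hi
    have hi' : z i ∈ Zs := ⟨a, ha, y, hy, hiy⟩
    have h1 := rel_all h hq1 hm hd hg hR hN n' hprod ha hy
    have h2 : (q : ℂ) ^ N / y ^ N = z j := by
      rw [hij', hiy]
      push_cast
      rfl
    rw [h2, ← hiy, hval i hi', hval j hj] at h1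
    exact h1

end Pool.Agent.Helper84.LR
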